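import Pool.Agent.H.MP_bc9e10_co.B

set_option autoImplicit false

namespace Pool.Agent.Results.MP_bc9e10_co.Unital

open Finset Pool.Agent.H.MP_bc9e10_co

theorem result : ∀ N : ℕ, ∃ n, N ≤ n ∧ ∃ H : Finset (Finset (Fin n)),
    (∀ e ∈ H, e.card = 3) ∧
    (¬ ∃ F ⊆ H, (F.biUnion id).card = 2 * 3 ∧
      ∀ v ∈ F.biUnion id, (F.filter (fun e => v ∈ e)).card = 2) ∧
    (n - 1).choose (3 - 1) + (n - 1) / 3 < H.card := by
  intro N
  obtain ⟨H, hG⟩ := fin_good N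
  have h1 : N < 2 ^ (2 * 3 ^ N) := by
    have a1 : N < 3 ^ N := Nat.lt_pow_self (by norm_num)
    have a2 : 2 * 3 ^ N < 2 ^ (2 * 3 ^ N) := Nat.lt_pow_self (by norm_num)
    omega
  refine ⟨_, by omega, H, hG.c3, noreg hG, ?_⟩
  have hc := count hG
  rw [Fintype.card_fin] at hc
  generalize 2 ^ (2 * 3 ^ N) = q at *
  obtain ⟨r, rfl⟩ : ∃ r, q = r + 1 := ⟨q - 1, by omega⟩
  have e1 : (r + 1 + 1) * (r + 1 + 1) = (r + 1) * r + 2 * (r + 1) + (r + 1 + 1) := by ring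
  have e2 : (r + 1).choose 2 * 2 = (r + 1) * r := by
    rw [Nat.choose_two_right, Nat.add_sub_cancel]
    exact Nat.div_mul_cancel (by rw [mul_comm]; exact (Nat.even_mul_succ_self r).two_dvd)
  simp only [Nat.add_sub_cancel, Nat.add_one_sub_one]
  omega

end Pool.Agent.Results.MP_bc9e10_co.Unital
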